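import Pool.Agent.Helper42_CG.Stmt

/-!
# CORM: the core of a set, as a minimiser
-/

set_option autoImplicit false
set_option linter.unusedSectionVars false

namespace Pool.Agent.CGP.H65

open SimpleGraph Pool.Agent.LAG Pool.Agent.LLG Pool.Agent.CGP

variable {W : Type} [Fintype W] (Γ : SimpleGraph W)

/-- number of ordered pairs of adjacent vertices in `A × B` -/
noncomputable def ee (A B : Set W) : ℕ := {e : W × W | e.1 ∈ A ∧ e.2 ∈ B ∧ Γ.Adj e.1 e.2}.ncard

theorem bd_ee (U : Set W) : bd Γ U = ee Γ U Uᶜ := rfl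

theorem ee_union (A A' B : Set W) (h : Disjoint A A') :
    ee Γ (A ∪ A') B = ee Γ A B + ee Γ A' B := by
  unfold ee
  rw [← Set.ncard_union_eq _ (Set.toFinite _) (Set.toFinite _)]
  · congr 1
    ext e
    constructor
    · rintro ⟨h1 | h1, h2, h3⟩
      · exact Or.inl ⟨h1, h2, h3⟩
      · exact Or.inr ⟨h1, h2, h3⟩
    · rintro (⟨h1, h2, h3⟩ | ⟨h1, h2, h3⟩)
      · exact ⟨Or.inl h1, h2, h3⟩
      · exact ⟨Or.inr h1, h2, h3⟩
  · rw [Set.disjoint_left]
    rintro e ⟨h1, -, -⟩ ⟨h2, -, -⟩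
    exact Set.disjoint_left.1 h h1 h2

theorem ee_symm (A B : Set W) : ee Γ A B = ee Γ B A := by
  unfold ee
  rw [← Set.ncard_image_of_injective _ Prod.swap_injective]
  congr 1
  ext e
  constructor
  · rintro ⟨f, ⟨h1, h2, h3⟩, rfl⟩
    exact ⟨h2, h1, h3.symm⟩
  · rintro ⟨h1, h2, h3⟩
    exact ⟨e.swap, ⟨h2, h1, h3.symm⟩, Prod.swap_swap e⟩

theorem ee_union' (A B B' : Set W) (h : Disjoint B B') :
    ee Γ A (B ∪ B') = ee Γ A B + ee Γ A B' := by
  rw [ee_symm, ee_union Γ B B' A h, ee_symm, ee_symm Γ B' A]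

theorem ee_single (w : W) (B : Set W) : ee Γ {w} B = {v | Γ.Adj w v ∧ v ∈ B}.ncard := by
  unfold ee
  rw [← Set.ncard_image_of_injective {v | Γ.Adj w v ∧ v ∈ B} (Prod.mk_right_injective w)]
  congr 1
  ext e
  constructor
  · rintro ⟨h1, h2, h3⟩
    have h1' : e.1 = w := h1
    exact ⟨e.2, ⟨h1' ▸ h3, h2⟩, Prod.ext h1'.symm rfl⟩
  · rintro ⟨v, ⟨h1, h2⟩, rfl⟩
    exact ⟨rfl, h2, h1⟩

/-- removing one vertex -/
theorem bd_erase (Y : Set W) (w : W) (hw : w ∈ Y) :
    bd Γ (Y \ {w}) + {v | Γ.Adj w v ∧ v ∉ Y}.ncard = bd Γ Y + {v | Γ.Adj w v ∧ v ∈ Y}.ncard := by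
  have d1 : Disjoint {w} (Y \ {w}) := Set.disjoint_sdiff_right
  have e1 : Y = {w} ∪ (Y \ {w}) := by
    rw [Set.union_sdiff_cancel (Set.singleton_subset_iff.2 hw)]
  have e2 : (Y \ {w})ᶜ = Yᶜ ∪ {w} := by
    ext v
    by_cases hv : v = w <;> by_cases hy : v ∈ Y <;> simp [hv, hy]
  have d2 : Disjoint Yᶜ {w} := by
    rw [Set.disjoint_singleton_right]
    exact fun h => h hw
  have h1 : bd Γ Y = ee Γ {w} Yᶜ + ee Γ (Y \ {w}) Yᶜ := by
    rw [bd_ee, ← ee_union Γ _ _ _ d1, ← e1]
  have h2 : bd Γ (Y \ {w}) = ee Γ (Y \ {w}) Yᶜ + ee Γ (Y \ {w}) {w} := by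
    rw [bd_ee, e2, ee_union' Γ _ _ _ d2]
  have h3 : ee Γ (Y \ {w}) {w} = {v | Γ.Adj w v ∧ v ∈ Y}.ncard := by
    rw [ee_symm, ee_single]
    congr 1
    ext v
    constructor
    · rintro ⟨h1, h2, -⟩
      exact ⟨h1, h2⟩
    · rintro ⟨h1, h2⟩
      exact ⟨h1, h2, fun h => h1.ne (Set.mem_singleton_iff.1 h).symm⟩
  have h4 : ee Γ {w} Yᶜ = {v | Γ.Adj w v ∧ v ∉ Y}.ncard := ee_single Γ w Yᶜ
  omega

/-- adding one vertex -/
theorem bd_insert (Y : Set W) (w : W) (hw : w ∉ Y) :
    bd Γ (insert w Y) + {v | Γ.Adj w v ∧ v ∈ Y}.ncard =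
      bd Γ Y + {v | Γ.Adj w v ∧ v ∉ Y}.ncard := by
  have h := bd_erase Γ (insert w Y) w (Set.mem_insert _ _)
  have e1 : insert w Y \ {w} = Y := by
    ext v
    by_cases hv : v = w
    · subst hv
      simp [hw]
    · simp [hv]
  have e2 : {v | Γ.Adj w v ∧ v ∉ insert w Y} = {v | Γ.Adj w v ∧ v ∉ Y} := by
    ext v
    constructor
    · rintro ⟨h1, h2⟩
      exact ⟨h1, fun h => h2 (Set.mem_insert_of_mem _ h)⟩
    · rintro ⟨h1, h2⟩
      refine ⟨h1, fun h => ?_⟩
      rcases Set.mem_insert_iff.1 h with h | h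
      · exact h1.ne h.symm
      · exact h2 h
  have e3 : {v | Γ.Adj w v ∧ v ∈ insert w Y} = {v | Γ.Adj w v ∧ v ∈ Y} := by
    ext v
    constructor
    · rintro ⟨h1, h2⟩
      rcases Set.mem_insert_iff.1 h2 with h | h
      · exact absurd h.symm h1.ne
      · exact ⟨h1, h⟩
    · rintro ⟨h1, h2⟩
      exact ⟨h1, Set.mem_insert_of_mem _ h2⟩
  rw [e1, e2, e3] at h
  omega

theorem deg_split (k : ℕ) (hk : ∀ v, (Γ.neighborSet v).ncard = k) (Y : Set W) (w : W) :
    {v | Γ.Adj w v ∧ v ∈ Y}.ncard + {v | Γ.Adj w v ∧ v ∉ Y}.ncard = k := by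
  rw [← hk w]
  exact Set.ncard_inter_add_ncard_sdiff_eq_ncard (Γ.neighborSet w) Y (Set.toFinite _)

/-- two sets without edges between them -/
theorem bd_union (A B : Set W) (hd : Disjoint A B) (h : ∀ a ∈ A, ∀ b ∈ B, ¬ Γ.Adj a b) :
    bd Γ (A ∪ B) = bd Γ A + bd Γ B := by
  unfold bd
  rw [← Set.ncard_union_eq _ (Set.toFinite _) (Set.toFinite _)]
  · congr 1
    ext e
    constructor
    · rintro ⟨h1 | h1, h2, h3⟩
      · exact Or.inl ⟨h1, fun h' => h2 (Or.inl h'), h3⟩
      · exact Or.inr ⟨h1, fun h' => h2 (Or.inr h'), h3⟩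
    · rintro (⟨h1, h2, h3⟩ | ⟨h1, h2, h3⟩)
      · refine ⟨Or.inl h1, ?_, h3⟩
        rintro (h' | h')
        · exact h2 h'
        · exact h _ h1 _ h' h3
      · refine ⟨Or.inr h1, ?_, h3⟩
        rintro (h' | h')
        · exact h _ h' _ h1 h3.symm
        · exact h2 h'
  · rw [Set.disjoint_left]
    rintro e ⟨h1, -, -⟩ ⟨h2, -, -⟩
    exact Set.disjoint_left.1 hd h1 h2

/-- **CORM.** -/
theorem corm : CormStmt := by
  intro W _ _ Γ k X hk
  let Φ : Finset W → ℕ := fun Y => 5 * bd Γ (Y : Set W) + k * ((Y \ X).card + (X \ Y).card)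
  obtain ⟨Y, -, hY⟩ := Finset.exists_min_image (Finset.univ : Finset (Finset W)) Φ
    Finset.univ_nonempty
  have hmin : ∀ Y' : Finset W, Φ Y ≤ Φ Y' := fun Y' => hY Y' (Finset.mem_univ _)
  have hcore : Core Γ k (Y : Set W) := by
    constructor
    · intro w hw
      have hw' : w ∈ Y := hw
      have h1 := hmin (Y.erase w)
      have h2 := bd_erase Γ (Y : Set W) w hw
      have h3 := deg_split Γ k hk (Y : Set W) w
      have e : ((Y.erase w : Finset W) : Set W) = (Y : Set W) \ {w} := Finset.coe_erase w Y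
      have c1 : (Y.erase w \ X).card ≤ (Y \ X).card :=
        Finset.card_le_card (Finset.sdiff_subset_sdiff (Finset.erase_subset _ _) le_rfl)
      have c2 : (X \ Y.erase w).card ≤ (X \ Y).card + 1 := by
        refine (Finset.card_le_card ?_).trans (Finset.card_insert_le w (X \ Y))
        intro v hv
        rw [Finset.mem_sdiff, Finset.mem_erase] at hv
        rw [Finset.mem_insert, Finset.mem_sdiff]
        by_cases h : v = w
        · exact Or.inl h
        · exact Or.inr ⟨hv.1, fun h' => hv.2 ⟨h, h'⟩⟩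
      have h4 : 5 * bd Γ (Y : Set W) + k * ((Y \ X).card + (X \ Y).card) ≤
          5 * bd Γ ((Y : Set W) \ {w}) + k * ((Y.erase w \ X).card + (X \ Y.erase w).card) := by
        rw [← e]
        exact h1
      have h5 : k * ((Y.erase w \ X).card + (X \ Y.erase w).card) ≤
          k * ((Y \ X).card + (X \ Y).card) + k := by
        calc k * ((Y.erase w \ X).card + (X \ Y.erase w).card)
            ≤ k * ((Y \ X).card + (X \ Y).card + 1) := Nat.mul_le_mul_left _ (by omega)
          _ = _ := by ring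
      have e2 : {v | Γ.Adj w v ∧ v ∉ (Y : Set W)}.ncard = {v | Γ.Adj w v ∧ v ∉ Y}.ncard := rfl
      change 5 * {v | Γ.Adj w v ∧ v ∉ (Y : Set W)}.ncard ≤ 3 * k
      omega
    · intro w hw
      have hw' : w ∉ Y := hw
      have h1 := hmin (insert w Y)
      have h2 := bd_insert Γ (Y : Set W) w hw
      have h3 := deg_split Γ k hk (Y : Set W) w
      have e : ((insert w Y : Finset W) : Set W) = insert w (Y : Set W) := Finset.coe_insert w Y
      have c1 : (insert w Y \ X).card ≤ (Y \ X).card + 1 := by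
        refine (Finset.card_le_card ?_).trans (Finset.card_insert_le w (Y \ X))
        intro v hv
        rw [Finset.mem_sdiff, Finset.mem_insert] at hv
        rw [Finset.mem_insert, Finset.mem_sdiff]
        rcases hv.1 with h | h
        · exact Or.inl h
        · exact Or.inr ⟨h, hv.2⟩
      have c2 : (X \ insert w Y).card ≤ (X \ Y).card :=
        Finset.card_le_card (Finset.sdiff_subset_sdiff le_rfl (Finset.subset_insert _ _))
      have h4 : 5 * bd Γ (Y : Set W) + k * ((Y \ X).card + (X \ Y).card) ≤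
          5 * bd Γ (insert w (Y : Set W)) +
            k * ((insert w Y \ X).card + (X \ insert w Y).card) := by
        rw [← e]
        exact h1
      have h5 : k * ((insert w Y \ X).card + (X \ insert w Y).card) ≤
          k * ((Y \ X).card + (X \ Y).card) + k := by
        calc k * ((insert w Y \ X).card + (X \ insert w Y).card)
            ≤ k * ((Y \ X).card + (X \ Y).card + 1) := Nat.mul_le_mul_left _ (by omega)
          _ = _ := by ring
      change 5 * {v | Γ.Adj w v ∧ v ∈ (Y : Set W)}.ncard ≤ 3 * k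
      omega
  refine ⟨Y, hcore, ?_⟩
  intro P hP hPs
  constructor
  · constructor
    · intro w hw
      have hw' : w ∈ Y ∩ P := hw
      rw [Finset.mem_inter] at hw'
      have e : {v | Γ.Adj w v ∧ v ∉ ((Y ∩ P : Finset W) : Set W)} =
          {v | Γ.Adj w v ∧ v ∉ (Y : Set W)} := by
        ext v
        constructor
        · rintro ⟨h1, h2⟩
          refine ⟨h1, fun h => h2 ?_⟩
          exact Finset.mem_coe.2 (Finset.mem_inter.2 ⟨h, hP w hw'.2 v
            (Finset.mem_union_right _ h) h1⟩)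
        · rintro ⟨h1, h2⟩
          exact ⟨h1, fun h => h2 (Finset.mem_inter.1 (Finset.mem_coe.1 h)).1⟩
      rw [e]
      exact hcore.1 w hw'.1
    · intro w hw
      have hw' : w ∉ Y ∩ P := hw
      by_cases hwY : w ∈ Y
      · have hwP : w ∉ P := fun h => hw' (Finset.mem_inter.2 ⟨hwY, h⟩)
        have e : {v | Γ.Adj w v ∧ v ∈ ((Y ∩ P : Finset W) : Set W)} = ∅ := by
          rw [Set.eq_empty_iff_forall_notMem]
          rintro v ⟨h1, h2⟩
          exact hwP (hP v (Finset.mem_inter.1 (Finset.mem_coe.1 h2)).2 w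
            (Finset.mem_union_right _ hwY) h1.symm)
        rw [e, Set.ncard_empty]
        omega
      · refine le_trans ?_ (hcore.2 w hwY)
        refine Nat.mul_le_mul_left _ (Set.ncard_le_ncard ?_ (Set.toFinite _))
        rintro v ⟨h1, h2⟩
        exact ⟨h1, (Finset.mem_inter.1 (Finset.mem_coe.1 h2)).1⟩
  · have h1 : Φ Y ≤ Φ ((Y \ P) ∪ (X ∩ P)) := hmin _
    have b1 : bd Γ (Y : Set W) = bd Γ ((Y ∩ P : Finset W) : Set W) +
        bd Γ ((Y \ P : Finset W) : Set W) := by
      rw [← bd_union]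
      · congr 1
        rw [← Finset.coe_union]
        congr 1
        ext v
        simp only [Finset.mem_sdiff, Finset.mem_union, Finset.mem_inter]
        tauto
      · rw [Finset.disjoint_coe, Finset.disjoint_left]
        intro a ha hb
        exact (Finset.mem_sdiff.1 hb).2 (Finset.mem_inter.1 ha).2
      · intro a ha b hb hab
        have ha' := Finset.mem_inter.1 (Finset.mem_coe.1 ha)
        have hb' := Finset.mem_sdiff.1 (Finset.mem_coe.1 hb)
        exact hb'.2 (hP a ha'.2 b (Finset.mem_union_right _ hb'.1) hab)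
    have b2 : bd Γ (((Y \ P) ∪ (X ∩ P) : Finset W) : Set W) =
        bd Γ ((X ∩ P : Finset W) : Set W) + bd Γ ((Y \ P : Finset W) : Set W) := by
      rw [← bd_union]
      · congr 1
        rw [← Finset.coe_union, Finset.union_comm]
      · rw [Finset.disjoint_coe, Finset.disjoint_left]
        intro a ha hb
        exact (Finset.mem_sdiff.1 hb).2 (Finset.mem_inter.1 ha).2
      · intro a ha b hb hab
        have ha' := Finset.mem_inter.1 (Finset.mem_coe.1 ha)
        have hb' := Finset.mem_sdiff.1 (Finset.mem_coe.1 hb)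
        exact hb'.2 (hP a ha'.2 b (Finset.mem_union_right _ hb'.1) hab)
    have s1 : (Y \ X).card = (((Y \ P) ∪ (X ∩ P)) \ X).card + ((Y ∩ P) \ X).card := by
      rw [← Finset.card_union_of_disjoint]
      · congr 1
        ext v
        simp only [Finset.mem_sdiff, Finset.mem_union, Finset.mem_inter]
        tauto
      · rw [Finset.disjoint_left]
        intro v hv hv'
        simp only [Finset.mem_sdiff, Finset.mem_union, Finset.mem_inter] at hv hv'
        tauto
    have s2 : (X \ Y).card = (X \ ((Y \ P) ∪ (X ∩ P))).card + ((X ∩ P) \ Y).card := by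
      rw [← Finset.card_union_of_disjoint]
      · congr 1
        ext v
        simp only [Finset.mem_sdiff, Finset.mem_union, Finset.mem_inter]
        tauto
      · rw [Finset.disjoint_left]
        intro v hv hv'
        simp only [Finset.mem_sdiff, Finset.mem_union, Finset.mem_inter] at hv hv'
        tauto
    have h2 : 5 * bd Γ (Y : Set W) + k * ((Y \ X).card + (X \ Y).card) ≤
        5 * bd Γ (((Y \ P) ∪ (X ∩ P) : Finset W) : Set W) +
          k * ((((Y \ P) ∪ (X ∩ P)) \ X).card + (X \ ((Y \ P) ∪ (X ∩ P))).card) := h1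
    rw [b1, b2, s1, s2] at h2
    simp only [Nat.mul_add] at h2
    omega

end Pool.Agent.CGP.H65
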